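import Mathlib
import Pool.Agent.Helper550.Semi
import Pool.Agent.H481R3.OMMain

/-!
# Banach algebras whose multiplication is not open: quotients, products, semisimplicity
-/

set_option autoImplicit false

namespace Pool.Agent.Y961.OM

open Pool.Agent.Helper550.Semi Pool.Agent.H481R3.OM TopologicalSpace

/-- Multiplication in the Banach algebra `A` is open: `(a, b) ↦ a b` is an open map. -/
def OpenMul (A : Type) [NormedRing A] : Prop :=
  IsOpenMap (fun p : A × A => p.1 * p.2)

/-- The product of `n` factors in the Banach algebra `A` is open: `(a_1, ..., a_n) ↦ a_1 ... a_n`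
is an open map. -/
def OpenProd (A : Type) [NormedRing A] (n : ℕ) : Prop :=
  IsOpenMap (fun x : Fin n → A => (List.ofFn x).prod)

/-- Multiplication in the Banach algebra `A` is uniformly open: for every `ε > 0` there is `δ > 0`
such that `B(ab, δ) ⊆ B(a, ε) · B(b, ε)` for all `a, b` of norm at most one. -/
def UnifOpenMul (A : Type) [NormedRing A] : Prop :=
  ∀ ε : ℝ, 0 < ε → ∃ δ : ℝ, 0 < δ ∧ ∀ a b : A, ‖a‖ ≤ 1 → ‖b‖ ≤ 1 →
    ∀ c ∈ Metric.ball (a * b) δ, ∃ x ∈ Metric.ball a ε, ∃ y ∈ Metric.ball b ε, x * y = c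

/-- the idempotents are linearly dense -/
def DenseIdem (A : Type) [NormedRing A] [NormedAlgebra ℂ A] : Prop :=
  Dense ((Submodule.span ℂ {e : A | e * e = e} : Submodule ℂ A) : Set A)

/-- the maximal ideal space is zero-dimensional: the clopen sets are a base -/
def ZeroDim (A : Type) [NormedCommRing A] [NormedAlgebra ℂ A] : Prop :=
  IsTopologicalBasis {s : Set (WeakDual.characterSpace ℂ A) | IsClopen s}

/-- `A` is semisimple: the characters separate the points of `A` -/
def Semisimple (A : Type) [NormedCommRing A] [NormedAlgebra ℂ A] : Prop :=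
  ∀ a : A, (∀ φ : WeakDual.characterSpace ℂ A, φ a = 0) → a = 0

/-- no `a b + κ`, `κ ≠ 0` a scalar, is a product of elements at distance less than `ε` from `a`
and `b` -/
def Bad {A : Type} [NormedRing A] [NormedAlgebra ℂ A] (a b : A) (ε : ℝ) : Prop :=
  ∀ κ : ℂ, κ ≠ 0 → ¬ ∃ x ∈ Metric.ball a ε, ∃ y ∈ Metric.ball b ε, x * y = a * b + κ • (1 : A)

/-- linear density of the idempotents implies that the Gelfand space is zero-dimensional -/
theorem zero_dim {A : Type} [NormedCommRing A] [NormedAlgebra ℂ A] [CompleteSpace A]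
    (hd : DenseIdem A) :
    ZeroDim A := by
  have hts : TotallySeparatedSpace (WeakDual.characterSpace ℂ A) := by
    refine ⟨?_⟩
    intro φ _ ψ _ hne
    obtain ⟨e, he, hφψ⟩ : ∃ e : A, e * e = e ∧ φ e ≠ ψ e := by
      by_contra hcon
      push Not at hcon
      apply hne
      have hclosed : IsClosed {a : A | φ a = ψ a} :=
        isClosed_eq (map_continuous φ) (map_continuous ψ)
      have hsub : ((Submodule.span ℂ {e : A | e * e = e} : Submodule ℂ A) : Set A) ⊆
          {a : A | φ a = ψ a} := by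
        intro a ha
        have ha' : a ∈ Submodule.span ℂ {e : A | e * e = e} := ha
        clear ha
        induction ha' using Submodule.span_induction with
        | mem x hx => exact hcon x hx
        | zero => simp only [Set.mem_setOf_eq, map_zero]
        | add x y _ _ hx hy =>
          simp only [Set.mem_setOf_eq] at hx hy ⊢
          rw [map_add, map_add, hx, hy]
        | smul c x _ hx =>
          simp only [Set.mem_setOf_eq] at hx ⊢
          rw [map_smul, map_smul, hx]
      have hall : ∀ a : A, φ a = ψ a := by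
        intro a
        have : a ∈ closure ((Submodule.span ℂ {e : A | e * e = e} : Submodule ℂ A) : Set A) := by
          rw [Dense.closure_eq hd]
          exact Set.mem_univ _
        exact closure_minimal hsub hclosed this
      exact DFunLike.ext _ _ hall
    have hval : ∀ χ : WeakDual.characterSpace ℂ A, χ e = 0 ∨ χ e = 1 := by
      intro χ
      have h1 : χ e * χ e = χ e := by rw [← map_mul, he]
      have h2 : χ e * (χ e - 1) = 0 := by rw [mul_sub, h1, mul_one, sub_self]
      rcases mul_eq_zero.1 h2 with h3 | h3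
      · exact Or.inl h3
      · exact Or.inr (sub_eq_zero.1 h3)
    have hcont : Continuous fun χ : WeakDual.characterSpace ℂ A => χ e :=
      (WeakDual.eval_continuous e).comp continuous_subtype_val
    have hopen : ∀ z : ℂ, IsOpen {χ : WeakDual.characterSpace ℂ A | χ e ≠ z} := fun z =>
      isOpen_ne.preimage hcont
    refine ⟨{χ | χ e ≠ ψ e}, {χ | χ e ≠ φ e}, hopen _, hopen _, hφψ, hφψ.symm, ?_, ?_⟩
    · intro χ _
      by_cases h : χ e = ψ e
      · right
        rw [Set.mem_setOf_eq, h]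
        exact hφψ.symm
      · left
        exact h
    · rw [Set.disjoint_left]
      intro χ h1 h2
      rw [Set.mem_setOf_eq] at h1 h2
      rcases hval χ with h | h <;> rcases hval φ with h3 | h3 <;> rcases hval ψ with h4 | h4 <;>
        simp only [h, h3, h4, ne_eq, not_true_eq_false] at h1 h2 hφψ
  have := hts
  exact isTopologicalBasis_isClopen

/-! ### Quotients -/

section Quot

variable {A B : Type} [NormedRing A] [NormedAlgebra ℂ A] [NormedRing B] [NormedAlgebra ℂ B]
  {a b : A} {ε : ℝ}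

theorem mem_pert (c : B) {δ : ℝ} (hδ : 0 < δ) : ∃ κ : ℂ, κ ≠ 0 ∧ c + κ • (1 : B) ∈ Metric.ball c δ := by
  have h1 : 0 < δ / (2 * (‖(1 : B)‖ + 1)) := by positivity
  refine ⟨((δ / (2 * (‖(1 : B)‖ + 1)) : ℝ) : ℂ), by exact_mod_cast h1.ne', ?_⟩
  rw [mem_ball_iff_norm, add_sub_cancel_left, norm_smul, Complex.norm_real,
    Real.norm_of_nonneg h1.le, div_mul_eq_mul_div, div_lt_iff₀ (by positivity)]
  have := norm_nonneg (1 : B)
  nlinarith

theorem not_openMul (hε : 0 < ε) (hbad : Bad a b ε) (π : B →ₐ[ℂ] A) (hπ : Continuous π)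
    (hs : Function.Surjective π) : ¬ OpenMul B := by
  intro hop
  obtain ⟨a', rfl⟩ := hs a
  obtain ⟨b', rfl⟩ := hs b
  set U : Set (B × B) := {p | π p.1 ∈ Metric.ball (π a') ε ∧ π p.2 ∈ Metric.ball (π b') ε} with hU
  have hUo : IsOpen U := (Metric.isOpen_ball.preimage (hπ.comp continuous_fst)).inter
    (Metric.isOpen_ball.preimage (hπ.comp continuous_snd))
  have hmem : a' * b' ∈ (fun p : B × B => p.1 * p.2) '' U :=
    ⟨(a', b'), ⟨Metric.mem_ball_self hε, Metric.mem_ball_self hε⟩, rfl⟩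
  obtain ⟨δ, hδ, hsub⟩ := Metric.isOpen_iff.1 (hop _ hUo) _ hmem
  obtain ⟨κ, hκ, hκm⟩ := mem_pert (a' * b') hδ
  obtain ⟨⟨x, y⟩, ⟨hx, hy⟩, hxy⟩ := hsub hκm
  refine hbad κ hκ ⟨π x, hx, π y, hy, ?_⟩
  have h := congrArg π hxy
  simp only [map_mul, map_add, map_smul, map_one] at h
  exact h

theorem continuous_ofFn_prod (n : ℕ) {X : Type} [TopologicalSpace X] (f : Fin n → X → B)
    (hf : ∀ i, Continuous (f i)) : Continuous fun x => (List.ofFn fun i => f i x).prod := by
  induction n with
  | zero => simpa using continuous_const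
  | succ n ih =>
    simp only [List.ofFn_succ, List.prod_cons]
    exact (hf 0).mul (ih (fun i => f i.succ) fun i => hf _)

theorem not_openProd (hε : 0 < ε) (hbad : Bad a b ε) (π : B →ₐ[ℂ] A) (hπ : Continuous π)
    (hs : Function.Surjective π) (n : ℕ) (hn : 2 ≤ n) : ¬ OpenProd B n := by
  intro hop
  obtain ⟨m, rfl⟩ : ∃ m, n = m + 2 := ⟨n - 2, by omega⟩
  obtain ⟨a', rfl⟩ := hs a
  obtain ⟨b', rfl⟩ := hs b
  have hfac : ∀ x : Fin (m + 2) → B, (List.ofFn x).prod =
      x 0 * (List.ofFn fun i : Fin (m + 1) => x i.succ).prod := fun x => by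
    rw [List.ofFn_succ, List.prod_cons]
  have hc : Continuous fun x : Fin (m + 2) → B =>
      π (List.ofFn fun i : Fin (m + 1) => x i.succ).prod :=
    hπ.comp (continuous_ofFn_prod (m + 1) (fun i (x : Fin (m + 2) → B) => x i.succ)
      fun i => continuous_apply _)
  set U : Set (Fin (m + 2) → B) := {x | π (x 0) ∈ Metric.ball (π a') ε ∧
    π (List.ofFn fun i : Fin (m + 1) => x i.succ).prod ∈ Metric.ball (π b') ε} with hU
  have hUo : IsOpen U := (Metric.isOpen_ball.preimage (hπ.comp (continuous_apply 0))).inter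
    (Metric.isOpen_ball.preimage hc)
  let x0 : Fin (m + 2) → B := Fin.cons a' (Fin.cons b' fun _ => 1)
  have hr : (List.ofFn fun i : Fin (m + 1) => x0 i.succ).prod = b' := by
    have e : (fun i : Fin (m + 1) => x0 i.succ) = Fin.cons b' fun _ => 1 := by
      funext i
      exact Fin.cons_succ _ _ _
    rw [e, List.ofFn_succ, List.prod_cons, Fin.cons_zero]
    have e2 : (fun i : Fin m => (Fin.cons b' fun _ => 1 : Fin (m + 1) → B) i.succ) = fun _ => 1 := by
      funext i
      exact Fin.cons_succ _ _ _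
    rw [e2, List.ofFn_const, List.prod_replicate, one_pow, mul_one]
  have h0 : x0 0 = a' := rfl
  have hmem : a' * b' ∈ (fun x : Fin (m + 2) → B => (List.ofFn x).prod) '' U := by
    refine ⟨x0, ⟨?_, ?_⟩, ?_⟩
    · rw [h0]; exact Metric.mem_ball_self hε
    · rw [hr]; exact Metric.mem_ball_self hε
    · change (List.ofFn x0).prod = _
      rw [hfac, hr, h0]
  obtain ⟨δ, hδ, hsub⟩ := Metric.isOpen_iff.1 (hop _ hUo) _ hmem
  obtain ⟨κ, hκ, hκm⟩ := mem_pert (a' * b') hδ
  obtain ⟨x, ⟨hx, hy⟩, hxy⟩ := hsub hκm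
  refine hbad κ hκ ⟨π (x 0), hx, _, hy, ?_⟩
  have h := congrArg π hxy
  simp only [hfac, map_mul, map_add, map_smul, map_one] at h
  exact h

theorem not_unif (hε : 0 < ε) (hbad : Bad a b ε) (π : B →ₐ[ℂ] A) (hπ : Continuous π)
    (hs : Function.Surjective π) : ¬ UnifOpenMul B := by
  intro hun
  obtain ⟨a', rfl⟩ := hs a
  obtain ⟨b', rfl⟩ := hs b
  let P : B →L[ℂ] A := ⟨π.toLinearMap, hπ⟩
  have hP : ∀ x, P x = π x := fun _ => rfl
  set r : ℝ := ‖a'‖ + ‖b'‖ + 1 with hr
  have hr0 : 0 < r := by positivity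
  have hrc : (r : ℂ) ≠ 0 := by exact_mod_cast hr0.ne'
  set ε' : ℝ := ε / (r * (‖P‖ + 1)) with hε'
  have hε0 : 0 < ε' := by positivity
  obtain ⟨δ, hδ, h⟩ := hun ε' hε0
  have hn : ∀ c : B, ‖c‖ ≤ r → ‖((r : ℂ))⁻¹ • c‖ ≤ 1 := by
    intro c hc
    rw [norm_smul, norm_inv, Complex.norm_real, Real.norm_of_nonneg hr0.le, inv_mul_le_iff₀ hr0,
      mul_one]
    exact hc
  obtain ⟨κ, hκ, hκm⟩ := mem_pert ((((r : ℂ))⁻¹ • a') * (((r : ℂ))⁻¹ • b')) hδ
  obtain ⟨x, hx, y, hy, hxy⟩ := h _ _ (hn a' (by rw [hr]; linarith [norm_nonneg b']))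
    (hn b' (by rw [hr]; linarith [norm_nonneg a'])) _ hκm
  have hb : ∀ c z : B, z ∈ Metric.ball (((r : ℂ))⁻¹ • c) ε' →
      π ((r : ℂ) • z) ∈ Metric.ball (π c) ε := by
    intro c z hz
    rw [mem_ball_iff_norm] at hz ⊢
    rw [← map_sub, ← hP]
    have e : (r : ℂ) • z - c = (r : ℂ) • (z - ((r : ℂ))⁻¹ • c) := by
      rw [smul_sub, smul_smul, mul_inv_cancel₀ hrc, one_smul]
    rw [e]
    refine lt_of_le_of_lt (P.le_opNorm _) ?_
    rw [norm_smul, Complex.norm_real, Real.norm_of_nonneg hr0.le]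
    have h1 : ‖P‖ * (r * ‖z - ((r : ℂ))⁻¹ • c‖) ≤ (‖P‖ + 1) * (r * ‖z - ((r : ℂ))⁻¹ • c‖) :=
      mul_le_mul_of_nonneg_right (by linarith) (by positivity)
    refine lt_of_le_of_lt h1 ?_
    have h2 : (‖P‖ + 1) * (r * ‖z - ((r : ℂ))⁻¹ • c‖) < (‖P‖ + 1) * (r * ε') := by
      have hp : 0 < (‖P‖ + 1) * r := by positivity
      nlinarith
    refine lt_of_lt_of_eq h2 ?_
    rw [hε']
    field_simp
  refine hbad ((r : ℂ) ^ 2 * κ) (mul_ne_zero (pow_ne_zero 2 hrc) hκ)
    ⟨π ((r : ℂ) • x), hb a' x hx, π ((r : ℂ) • y), hb b' y hy, ?_⟩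
  rw [← map_mul, smul_mul_smul_comm, hxy, smul_mul_smul_comm, smul_add, smul_smul, smul_smul,
    map_add, map_smul, map_smul, map_one, map_mul]
  congr 1
  · have : (r : ℂ) * r * ((r : ℂ)⁻¹ * (r : ℂ)⁻¹) = 1 := by field_simp
    rw [this, one_smul]
  · rw [pow_two]

end Quot

/-! ### Products -/

section Prod

variable {A B : Type} [NormedCommRing A] [NormedAlgebra ℂ A] [NormedCommRing B] [NormedAlgebra ℂ B]

theorem dense_prod (hB : DenseIdem B) (hA : DenseIdem A) : DenseIdem (B × A) := by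
  unfold DenseIdem at *
  refine (hB.prod hA).mono ?_
  rintro ⟨b, a⟩ ⟨hb, ha⟩
  have e : ((b, a) : B × A) = LinearMap.inl ℂ B A b + LinearMap.inr ℂ B A a := by
    simp
  change ((b, a) : B × A) ∈ Submodule.span ℂ {e : B × A | e * e = e}
  rw [e]
  refine Submodule.add_mem _ ?_ ?_
  · have h1 : LinearMap.inl ℂ B A b ∈ Submodule.map (LinearMap.inl ℂ B A)
        (Submodule.span ℂ {e : B | e * e = e}) := Submodule.mem_map_of_mem hb
    rw [Submodule.map_span] at h1
    refine Submodule.span_mono ?_ h1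
    rintro _ ⟨x, hx, rfl⟩
    have hx' : x * x = x := hx
    change LinearMap.inl ℂ B A x * LinearMap.inl ℂ B A x = LinearMap.inl ℂ B A x
    simp [hx']
  · have h1 : LinearMap.inr ℂ B A a ∈ Submodule.map (LinearMap.inr ℂ B A)
        (Submodule.span ℂ {e : A | e * e = e}) := Submodule.mem_map_of_mem ha
    rw [Submodule.map_span] at h1
    refine Submodule.span_mono ?_ h1
    rintro _ ⟨x, hx, rfl⟩
    have hx' : x * x = x := hx
    change LinearMap.inr ℂ B A x * LinearMap.inr ℂ B A x = LinearMap.inr ℂ B A x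
    simp [hx']

theorem semisimple_iff [CompleteSpace A] :
    Semisimple A ↔ ∀ a : A, (∀ φ : A →ₐ[ℂ] ℂ, φ a = 0) → a = 0 := by
  constructor
  · intro h a ha
    refine h a fun φ => ?_
    have := ha (WeakDual.CharacterSpace.equivAlgHom φ)
    rwa [WeakDual.CharacterSpace.equivAlgHom_coe] at this
  · intro h a ha
    refine h a fun φ => ?_
    have := ha (WeakDual.CharacterSpace.equivAlgHom.symm φ)
    rwa [WeakDual.CharacterSpace.equivAlgHom_symm_coe] at this

theorem semisimple_prod [CompleteSpace A] [CompleteSpace B] (hB : Semisimple B)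
    (hA : Semisimple A) : Semisimple (B × A) := by
  rw [semisimple_iff] at *
  rintro ⟨b, a⟩ h
  have h1 : b = 0 := hB b fun φ => h (φ.comp (AlgHom.fst ℂ B A))
  have h2 : a = 0 := hA a fun φ => h (φ.comp (AlgHom.snd ℂ B A))
  rw [h1, h2]
  rfl

end Prod

/-! ### The example -/

theorem chi_inj (x : L FS) (h : ∀ T : Finset (ℕ × Fin 3), chi T x = 0) : x = 0 := by
  classical
  have key : ∀ T : Finset (ℕ × Fin 3), co (toFS T) x = 0 := by
    intro T
    induction T using Finset.strongInduction with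
    | H T ih =>
      have h1 := h T
      rw [chi_apply, ← Finset.insert_erase (Finset.mem_powerset_self T),
        Finset.sum_insert (Finset.notMem_erase _ _)] at h1
      have h2 : ∑ S ∈ T.powerset.erase T, ((om (toFS S) : ℂ))⁻¹ * co (toFS S) x = 0 := by
        refine Finset.sum_eq_zero fun S hS => ?_
        have hS' := Finset.mem_erase.1 hS
        rw [ih S (lt_of_le_of_ne (Finset.mem_powerset.1 hS'.2) hS'.1), mul_zero]
      rw [h2, add_zero] at h1
      have h3 : ((om (toFS T) : ℂ))⁻¹ ≠ 0 :=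
        inv_ne_zero (by exact_mod_cast (om_pos (toFS T)).ne')
      exact (mul_eq_zero.1 h1).resolve_left h3
  refine co_ext fun S => ?_
  rw [map_zero]
  exact key S

/-- The example: separable, semisimple, with linearly dense idempotents and a bad pair. -/
theorem exists_example : ∃ (A : Type) (_ : NormedCommRing A) (_ : NormedAlgebra ℂ A)
    (_ : CompleteSpace A), ‖(1 : A)‖ = 1 ∧ SeparableSpace A ∧ Semisimple A ∧ DenseIdem A ∧
      ∃ a b : A, ‖a‖ ≤ 1 ∧ ‖b‖ ≤ 1 ∧ Bad a b ((1 / 2) ^ 23) := by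
  obtain ⟨A, iR, iA, iC, e, he, he1, hemul⟩ := exists_alg isW
  have h1 : ‖(1 : A)‖ = 1 := by rw [he, he1, norm_sg]
  let E : A ≃ₗᵢ[ℂ] L FS := LinearIsometryEquiv.mk e (fun x => (he x).symm)
  have hE : ∀ x, E x = e x := fun x => rfl
  have hEm : ∀ x y, E (x * y) = cv isW (E x) (E y) := hemul
  have hE1 : E 1 = sg (toFS ∅) := he1
  have hspan : ∀ x : A, x ∈ closure ((Submodule.span ℂ (Set.range fun S : FS => E.symm (sg S)) :
      Submodule ℂ A) : Set A) := by
    intro x
    have hs := (hasSum_sg (E x)).mapL (E.symm.toContinuousLinearEquiv : L FS →L[ℂ] A)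
    have hx : (E.symm.toContinuousLinearEquiv : L FS →L[ℂ] A) (E x) = x := E.symm_apply_apply x
    rw [hx] at hs
    refine mem_closure_of_tendsto hs (Filter.Eventually.of_forall (fun F => ?_))
    refine Submodule.sum_mem _ (fun S _ => ?_)
    rw [map_smul]
    exact Submodule.smul_mem _ _ (Submodule.subset_span ⟨S, rfl⟩)
  have hdense : DenseIdem A := by
    intro x
    refine closure_mono ?_ (hspan x)
    refine Submodule.span_le.2 ?_
    rintro _ ⟨S, rfl⟩
    have h3 : (om S : ℂ) ≠ 0 := by exact_mod_cast (om_pos S).ne'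
    have hidem : (om S : ℂ) • E.symm (sg S) ∈ {e : A | e * e = e} := by
      have hS : S + S = S := Finset.union_self (α := ℕ × Fin 3) S
      change ((om S : ℂ) • E.symm (sg S)) * ((om S : ℂ) • E.symm (sg S)) =
        (om S : ℂ) • E.symm (sg S)
      apply E.injective
      rw [hEm, map_smul, E.apply_symm_apply, map_smul, map_smul, smul_apply, cv_sg, hS, smul_smul,
        smul_smul]
      congr 1
      unfold sc
      rw [hS]
      push_cast
      field_simp
    have h4 := Submodule.smul_mem _ ((om S : ℂ)⁻¹) (Submodule.subset_span hidem)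
    rw [smul_smul, inv_mul_cancel₀ h3, one_smul] at h4
    exact h4
  have hsep : SeparableSpace A := by
    have hc : Countable FS := inferInstanceAs (Countable (Finset (ℕ × Fin 3)))
    rw [← isSeparable_univ_iff]
    refine IsSeparable.mono ((Set.countable_range fun S : FS => E.symm (sg S)).isSeparable.span
      (R := ℂ)).closure fun x _ => hspan x
  have hss : Semisimple A := by
    rw [semisimple_iff]
    intro a ha
    apply E.injective
    rw [map_zero]
    refine chi_inj _ fun T => ?_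
    have hone : chi T (E 1) = 1 := by
      rw [hE1, chi_sg, if_pos (Finset.empty_subset T), om_toFS, Finset.prod_empty]
      simp
    exact ha (AlgHom.ofLinearMap ((chi T : L FS →ₗ[ℂ] ℂ).comp (E.toLinearEquiv : A →ₗ[ℂ] L FS))
      hone (fun x y => by
        change chi T (E (x * y)) = chi T (E x) * chi T (E y)
        rw [hEm, chi_mul]))
  refine ⟨A, iR, iA, iC, h1, hsep, hss, hdense, E.symm ea, E.symm eb, ?_, ?_, ?_⟩
  · rw [E.symm.norm_map]; exact norm_ea
  · rw [E.symm.norm_map]; exact norm_eb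
  · rintro κ hκ ⟨x, hx, y, hy, hxy⟩
    refine no_fact (E x) (E y) κ hκ ?_ ?_ ?_
    · rw [← hEm, hxy, map_add, hEm, E.apply_symm_apply, E.apply_symm_apply, map_smul, hE1]
    · rw [mem_ball_iff_norm] at hx
      have : ‖E x - ea‖ = ‖x - E.symm ea‖ := by
        rw [← E.norm_map (x - E.symm ea), map_sub, E.apply_symm_apply]
      rw [this]
      exact hx
    · rw [mem_ball_iff_norm] at hy
      have : ‖E y - eb‖ = ‖y - E.symm eb‖ := by
        rw [← E.norm_map (y - E.symm eb), map_sub, E.apply_symm_apply]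
      rw [this]
      exact hy

end Pool.Agent.Y961.OM
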